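import Pool.Agent.K6.H25.LDU.Step
import Pool.Agent.K6.H34.LU.D

/-!
# Abhyankar's inequality over a Dedekind domain
-/

set_option autoImplicit false
set_option linter.unusedVariables false
set_option linter.unusedSectionVars false

universe u

namespace Pool.Agent.K6.H25.LDU

open IsLocalRing Pool.Agent.W418.LU2 Pool.Agent.TH188.QS Pool.Agent.H176.DT Pool.Agent.R187.CT
open Pool.Agent.K6.H34.LU Cardinal

lemma resTr_succ_le {k F : Type u} [Field k] [Field F] [Algebra k F] (W : ValuationSubring F)
    (hk : ∀ c : k, algebraMap k F c ∈ W) {x : F} (hx : x ∉ W) :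
    resTr W hk + 1 ≤ Algebra.trdeg k F := by
  obtain ⟨s, t, hs, ht⟩ : ∃ (s : Set (ResidueField W)) (t : s → F),
      Cardinal.mk s = resTr W hk ∧ ∀ P : MvPolynomial s k, P ≠ 0 → MvPolynomial.aeval t P ∈ W ∧
        (MvPolynomial.aeval t P)⁻¹ ∈ W ∧ MvPolynomial.aeval t P ≠ 0 := by
    let _ := (resHom W hk).toAlgebra
    obtain ⟨s, hs⟩ := exists_isTranscendenceBasis k (ResidueField W)
    choose l hl using fun w : s => residue_surjective (R := W) (w : ResidueField W)
    refine ⟨s, fun w => ((l w : W) : F), hs.cardinalMk_eq_trdeg, fun P hP => ?_⟩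
    refine unit_of_indep W hk _ (fun w => (l w).2) ?_ P hP
    have h3 : (fun w : s => residue W ⟨((l w : W) : F), (l w).2⟩) =
        (fun w : s => (w : ResidueField W)) := funext fun w => hl w
    rw [h3]
    exact hs.1
  rw [← hs]
  exact trdeg_ge W t ht hx

/-- Lifts of algebraically independent elements. -/
lemma trdeg_lift {D F : Type u} [CommRing D] [IsDomain D] [IsDiscreteValuationRing D] [Field F]
    [Algebra D F] [FaithfulSMul D F] (W : ValuationSubring F)
    (hD : ∀ c : D, algebraMap D F c ∈ W) [Algebra (ResidueField D) (ResidueField W)]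
    (hψ : ∀ c : D, algebraMap (ResidueField D) (ResidueField W) (residue D c) =
      residue W ⟨algebraMap D F c, hD c⟩) :
    Algebra.trdeg (ResidueField D) (ResidueField W) ≤ Algebra.trdeg D F := by
  obtain ⟨π, hπ⟩ := IsDiscreteValuationRing.exists_irreducible D
  obtain ⟨s, hs⟩ := exists_isTranscendenceBasis (ResidueField D) (ResidueField W)
  choose l hl using fun w : s => residue_surjective (R := W) (w : ResidueField W)
  rw [← hs.cardinalMk_eq_trdeg]
  have hres : (fun w : s => residue W ⟨((l w : W) : F), (l w).2⟩) =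
      (fun w : s => (w : ResidueField W)) := funext fun w => hl w
  have hai : AlgebraicIndependent D (fun w : s => ((l w : W) : F)) := by
    rw [algebraicIndependent_iff]
    intro P hP
    by_contra h0
    obtain ⟨n, P₁, hP₁, rfl⟩ := WfDvdMonoid.max_power_factor h0 (C_irr s hπ)
    rw [map_mul, map_pow, MvPolynomial.aeval_C] at hP
    rcases mul_eq_zero.1 hP with h4 | h4
    · have h6 : algebraMap D F π ≠ 0 := fun h =>
        hπ.ne_zero (FaithfulSMul.algebraMap_injective D F (by rw [h, map_zero]))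
      exact pow_ne_zero n h6 h4
    · obtain ⟨h5, h6⟩ := res_aeval W hD hψ (fun w : s => ((l w : W) : F)) (fun w => (l w).2) P₁
      have h7 : residue W ⟨MvPolynomial.aeval (fun w : s => ((l w : W) : F)) P₁, h5⟩ = 0 := by
        have h8 : (⟨MvPolynomial.aeval (fun w : s => ((l w : W) : F)) P₁, h5⟩ : W) = 0 :=
          Subtype.ext h4
        rw [h8, map_zero]
      rw [h6, hres] at h7
      apply hP₁
      rw [C_dvd_iff hπ]
      exact (algebraicIndependent_iff.1 hs.1) _ h7
  exact hai.cardinalMk_le_trdeg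

/-- Abhyankar's inequality. -/
theorem kd_lt {O F : Type u} [CommRing O] [IsDedekindDomain O] [CharZero O] [Field F]
    (ρ : O →+* F) (W : ValuationSubring F) (h : ∀ c : O, ρ c ∈ W) (hW : W ≠ ⊤) :
    kd (resO ρ W h) + 1 ≤ kd ρ := by
  obtain ⟨x, hx⟩ : ∃ x : F, x ∉ W := by
    by_contra hcon
    push Not at hcon
    exact hW (top_unique fun z _ => hcon z)
  rcases cases3 ρ W h with ⟨k, _, _, hk, hr, e1, e2⟩ | ⟨k, _, _, hk, hρσ, hσ, e1, e2⟩ |
    ⟨D, _, _, _, _, _, _, hD, _, hψ, hρσ, hσ, e1, e2⟩
  · rw [e1, e2]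
    exact resTr_succ_le W hk hx
  · rw [e1, e2]
    exact add_le_add_left (resTr_succ_le W hk hx) 1
  · rw [e1, e2]
    exact add_le_add_left (trdeg_lift W hD hψ) 1

/-- The dimensions along a chain. -/
theorem kd_chain {O K : Type u} [CommRing O] [IsDedekindDomain O] [CharZero O] [Field K]
    (ρ : O →+* K) {U U' : ValuationSubring K} (h : U < U') (hU : ∀ c : O, ρ c ∈ U)
    (hU' : ∀ c : O, ρ c ∈ U') : kd (resO ρ U hU) + 1 ≤ kd (resO ρ U' hU') := by
  obtain ⟨G, hG, hGc⟩ := img_res' h.le
  have hW : ∀ c : O, resO ρ U' hU' c ∈ img h.le := fun c => (mem_img h.le (hU' c)).2 (hU c)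
  have hkd : kd (resO (resO ρ U' hU') (img h.le) hW) = kd (resO ρ U hU) := by
    refine kd_congr _ _ G hG ?_
    ext c
    exact hGc ⟨ρ c, hU c⟩
  rw [← hkd]
  refine kd_lt _ _ _ fun htop => ?_
  obtain ⟨x, hx₁, hx⟩ := SetLike.exists_of_lt h
  apply hx
  rw [← mem_img h.le hx₁, htop]
  trivial

/-- Fields of finite type. -/
lemma kd_fin {O K : Type u} [CommRing O] [Field K] (ρ : O →+* K) (T : Set K) (hT : T.Finite)
    (hfr : ∀ z : K, Fr (rg ρ T) z) : kd ρ < ℵ₀ := by
  have key : ∀ (k : Type u) [CommRing k] [IsDomain k] [Algebra k K] [FaithfulSMul k K],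
      (algebraMap k K).range = ρ.range → Algebra.trdeg k K < ℵ₀ := by
    intro k _ _ _ _ hk
    let A : Subalgebra k K := Algebra.adjoin k T
    have hAFG : A.FG := ⟨hT.toFinset, by rw [Set.Finite.coe_toFinset]⟩
    have hft : Algebra.FiniteType k A := (Subalgebra.fg_iff_finiteType A).1 hAFG
    have hle : rg ρ T ≤ A.toSubring := by
      unfold rg
      rw [Subring.closure_le]
      rintro z (hz | hz)
      · rw [← hk] at hz
        obtain ⟨c, rfl⟩ := hz
        exact A.algebraMap_mem c
      · exact Algebra.subset_adjoin hz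
    have hfrac : IsFractionRing A K := by
      refine IsFractionRing.of_field _ _ fun x => ?_
      obtain ⟨a, ha, b, hb, hb0, h1⟩ := hfr x
      exact ⟨⟨a, hle ha⟩, ⟨b, hle hb⟩, h1.trans (div_eq_mul_inv _ _).symm⟩
    have halg : Algebra.IsAlgebraic A K := IsLocalization.isAlgebraic K (nonZeroDivisors A)
    have hfA : FaithfulSMul k A := (faithfulSMul_iff_algebraMap_injective k A).2 fun a b h =>
      FaithfulSMul.algebraMap_injective k K (congrArg Subtype.val h)
    have h1 := _root_.trdeg_add_eq k A (A := K)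
    rw [_root_.trdeg_eq_zero (R := A) (A := K), add_zero] at h1
    rw [← h1]
    exact _root_.trdeg_lt_aleph0_of_finiteType
  have hf : FaithfulSMul ρ.range K := (faithfulSMul_iff_algebraMap_injective ρ.range K).2
    Subtype.val_injective
  have h1 : (algebraMap ρ.range K).range = ρ.range := by
    ext z
    constructor
    · rintro ⟨c, rfl⟩
      exact c.2
    · intro hz
      exact ⟨⟨z, hz⟩, rfl⟩
  unfold kd
  refine Cardinal.add_lt_aleph0 (key ρ.range h1) ?_
  split_ifs
  · exact Cardinal.one_lt_aleph0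
  · exact Cardinal.aleph0_pos

end Pool.Agent.K6.H25.LDU
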