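import Pool.Agent.K6.H25.LDU.Abh

/-!
# Valuations over a Dedekind domain whose components have small relative dimension
-/

set_option autoImplicit false
set_option linter.unusedVariables false
set_option linter.unusedSectionVars false

universe u

namespace Pool.Agent.K6.H25.LDU

open IsLocalRing Pool.Agent.W418.LU2 Pool.Agent.TH188.QS Pool.Agent.H176.DT Pool.Agent.R187.CT
open Pool.Agent.K6.H34.LU Cardinal

/-- There is no valuation ring strictly between `U` and `U'`. -/
def AdjO {K : Type u} [Field K] (U U' : ValuationSubring K) : Prop :=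
  U < U' ∧ ∀ U'' : ValuationSubring K, U ≤ U'' → U'' ≤ U' → U'' = U ∨ U'' = U'

variable {O K : Type u} [CommRing O] [IsDedekindDomain O] [CharZero O] [Field K]

lemma kd_top (ρ : O →+* K) (h : ∀ c : O, ρ c ∈ (⊤ : ValuationSubring K)) :
    kd (resO ρ ⊤ h) = kd ρ := by
  let g : K →+* ResidueField (⊤ : ValuationSubring K) :=
    (residue (⊤ : ValuationSubring K)).comp
      ((RingHom.id K).codRestrict (⊤ : ValuationSubring K).toSubring fun z => trivial)
  refine kd_congr ρ _ g (fun w => ?_) ?_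
  · obtain ⟨z, rfl⟩ := residue_surjective (R := (⊤ : ValuationSubring K)) w
    exact ⟨z, rfl⟩
  · ext c
    rfl

lemma kd_le (ρ : O →+* K) (U : ValuationSubring K) (h : ∀ c : O, ρ c ∈ U) :
    kd (resO ρ U h) ≤ kd ρ := by
  by_cases hU : U = ⊤
  · subst hU
    exact (kd_top ρ h).le
  · exact le_self_add.trans (kd_lt ρ U h hU)

lemma kd_mono (ρ : O →+* K) {U U' : ValuationSubring K} (h : U ≤ U') (hU : ∀ c : O, ρ c ∈ U)
    (hU' : ∀ c : O, ρ c ∈ U') : kd (resO ρ U hU) ≤ kd (resO ρ U' hU') := by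
  rcases h.eq_or_lt with h | h
  · subst h
    exact le_rfl
  · exact le_self_add.trans (kd_chain ρ h hU hU')

theorem good_betweenO {d : ℕ} (hd : LUD.{u} d) (hm : LUM.{u} d) (ρ : O →+* K)
    (hK : kd ρ < ℵ₀) (V : ValuationSubring K) (hV : ∀ c : O, ρ c ∈ V) (j : ℕ) :
    ∀ (U U' : ValuationSubring K) (hVU : V ≤ U) (hUU : U ≤ U')
      (hdrop : ∀ (U₁ U₂ : ValuationSubring K) (h1 : V ≤ U₁) (h2 : V ≤ U₂), U ≤ U₁ → U₂ ≤ U' →
        AdjO U₁ U₂ → kd (resO ρ U₂ fun c => h2 (hV c)) ≤ kd (resO ρ U₁ fun c => h1 (hV c)) + d)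
      (a b : ℕ), kd (resO ρ U' fun c => hUU (hVU (hV c))) = a →
      kd (resO ρ U fun c => hVU (hV c)) = b → a - b ≤ j → Good ρ U' → Good ρ U := by
  have hfin : ∀ (U : ValuationSubring K) (h : V ≤ U), ∃ m : ℕ,
      kd (resO ρ U fun c => h (hV c)) = m :=
    fun U h => Cardinal.lt_aleph0.1 ((kd_le ρ U _).trans_lt hK)
  have hlt : ∀ {U U' : ValuationSubring K} (h : U < U') (hU : V ≤ U) (hU' : V ≤ U') {a b : ℕ},
      kd (resO ρ U' fun c => hU' (hV c)) = a → kd (resO ρ U fun c => hU (hV c)) = b → b < a := by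
    intro U U' h hU hU' a b ha hb
    have h1 := kd_chain ρ h (fun c => hU (hV c)) (fun c => hU' (hV c))
    rw [ha, hb] at h1
    have h2 : b + 1 ≤ a := by exact_mod_cast h1
    exact h2
  induction j with
  | zero =>
    intro U U' hVU hUU hdrop a b ha hb hab h1
    rcases hUU.eq_or_lt with h | h
    · subst h
      exact h1
    · have h2 := hlt h hVU (hVU.trans hUU) ha hb
      omega
  | succ j ih =>
    intro U U' hVU hUU hdrop a b ha hb hab h1
    rcases hUU.eq_or_lt with h | h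
    · subst h
      exact h1
    by_cases hadj : ∃ U'' : ValuationSubring K, U < U'' ∧ U'' < U'
    · obtain ⟨U'', h2, h3⟩ := hadj
      obtain ⟨c, hc⟩ := hfin U'' (hVU.trans h2.le)
      have h4 := hlt h2 hVU (hVU.trans h2.le) hc hb
      have h5 := hlt h3 (hVU.trans h2.le) (hVU.trans hUU) ha hc
      exact ih U U'' hVU h2.le (fun U₁ U₂ h8 h9 h6 h7 => hdrop U₁ U₂ h8 h9 h6 (h7.trans h3.le)) c b
        hc hb (by omega) (ih U'' U' (hVU.trans h2.le) h3.le
          (fun U₁ U₂ h8 h9 h6 h7 => hdrop U₁ U₂ h8 h9 (h2.le.trans h6) h7) a c ha hc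
          (by omega) h1)
    · push Not at hadj
      have h2 : ∀ U'' : ValuationSubring K, U ≤ U'' → U'' ≤ U' → U'' = U ∨ U'' = U' := by
        intro U'' h3 h4
        rcases h3.eq_or_lt with h5 | h5
        · exact Or.inl h5.symm
        · right
          rcases h4.eq_or_lt with h6 | h6
          · exact h6
          · exact absurd h6 (hadj U'' h5)
      refine good_adjO hd hm ρ hUU (fun c => hVU (hV c)) (fun c => hUU (hVU (hV c))) h2 ?_
        (hdrop U U' hVU (hVU.trans hUU) le_rfl le_rfl ⟨h, h2⟩) h1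
      rw [hb]
      exact Cardinal.natCast_lt_aleph0

/-- The main theorem. -/
theorem good_componentsO {d : ℕ} (hd : LUD.{u} d) (hm : LUM.{u} d) (ρ : O →+* K)
    (hK : kd ρ < ℵ₀) (V : ValuationSubring K) (hV : ∀ c : O, ρ c ∈ V)
    (hdrop : ∀ (U U' : ValuationSubring K) (hU : V ≤ U) (hU' : V ≤ U'), AdjO U U' →
      kd (resO ρ U' fun c => hU' (hV c)) ≤ kd (resO ρ U fun c => hU (hV c)) + d) : Good ρ V := by
  obtain ⟨a, ha⟩ := Cardinal.lt_aleph0.1
    ((kd_le ρ (⊤ : ValuationSubring K) fun c => trivial).trans_lt hK)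
  obtain ⟨b, hb⟩ := Cardinal.lt_aleph0.1 ((kd_le ρ V hV).trans_lt hK)
  exact good_betweenO hd hm ρ hK V hV (a - b) V ⊤ le_rfl le_top
    (fun U₁ U₂ h1 h2 _ _ h3 => hdrop U₁ U₂ h1 h2 h3) a b ha hb le_rfl (good_top _)

/-- Valuations of large rank. -/
theorem good_strictO {d : ℕ} (hd : LUD.{u} d) (hm : LUM.{u} d) (ρ : O →+* K)
    (hK : kd ρ < ℵ₀) (V : ValuationSubring K) (hV : ∀ c : O, ρ c ∈ V) (r : ℕ)
    (hr : (r : WithBot ℕ∞) ≤ ringKrullDim V)
    (h : kd ρ < r + kd (resO ρ V hV) + d) : Good ρ V := by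
  obtain ⟨q, r', hr', h0, hq, hVq, hlt⟩ := exists_chain V r hr
  obtain ⟨n, hn⟩ := Cardinal.lt_aleph0.1 hK
  have hfin : ∀ i, ∃ m : ℕ, kd (resO ρ (q i) fun c => hVq i (hV c)) = m := fun i =>
    Cardinal.lt_aleph0.1 ((kd_le ρ (q i) _).trans_lt hK)
  choose m hmi using hfin
  have hs : kd (resO ρ V hV) = m r' := by
    have h2 : ∀ (U : ValuationSubring K) (hU : ∀ c : O, ρ c ∈ U), U = V →
        kd (resO ρ V hV) = kd (resO ρ U hU) := by
      rintro U hU rfl
      rfl
    rw [← hmi r']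
    exact h2 _ _ hq
  rw [hs, hn] at h
  have h' : n < r + m r' + d := by exact_mod_cast h
  have h1 : m 0 ≤ n := by
    have h2 := kd_le ρ (q 0) fun c => hVq 0 (hV c)
    rw [hmi, hn] at h2
    exact_mod_cast h2
  have h2 : ∀ i < r', m (i + 1) + 1 ≤ m i := by
    intro i hi
    have h3 := kd_chain ρ (hlt i hi) (fun c => hVq _ (hV c)) (fun c => hVq _ (hV c))
    rw [hmi, hmi] at h3
    exact_mod_cast h3
  have h3 : ∀ i ≤ r', m i + i ≤ n := by
    intro i
    induction i with
    | zero => exact fun _ => h1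
    | succ i ih =>
      intro hi
      have h4 := ih (Nat.le_of_succ_le hi)
      have h5 := h2 i hi
      omega
  have h4 : ∀ j ≤ r', m r' + j ≤ m (r' - j) := by
    intro j
    induction j with
    | zero =>
      intro _
      exact le_rfl
    | succ j ih =>
      intro hj
      have h5 := ih (Nat.le_of_succ_le hj)
      have h6 := h2 (r' - (j + 1)) (by omega)
      have h7 : r' - (j + 1) + 1 = r' - j := by omega
      rw [h7] at h6
      omega
  have key : ∀ i ≤ r', Good ρ (q i) := by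
    intro i
    induction i with
    | zero =>
      intro _
      rw [h0]
      exact good_top _
    | succ i ih =>
      intro hi
      have h5 := h3 i (Nat.le_of_succ_le hi)
      have h6 := h4 (r' - (i + 1)) (Nat.sub_le _ _)
      have h7 : r' - (r' - (i + 1)) = i + 1 := by omega
      rw [h7] at h6
      have h8 : m i ≤ m (i + 1) + d := by omega
      refine good_betweenO hd hm ρ hK V hV (m i - m (i + 1)) (q (i + 1)) (q i) (hVq _)
        (hlt i hi).le ?_ (m i) (m (i + 1)) (hmi i) (hmi (i + 1)) le_rfl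
        (ih (Nat.le_of_succ_le hi))
      intro U₁ U₂ hV1 hV2 h9 h10 _
      refine (kd_mono ρ h10 (fun c => hV2 (hV c)) (fun c => hVq _ (hV c))).trans
        ((?_ : _ ≤ kd (resO ρ (q (i + 1)) fun c => hVq _ (hV c)) + (d : Cardinal.{u})).trans ?_)
      · rw [hmi, hmi]
        exact_mod_cast h8
      · gcongr
        exact kd_mono ρ h9 _ _
  rw [← hq]
  exact key r' le_rfl

end Pool.Agent.K6.H25.LDU
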