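import Pool.Agent.K6.H25.LDU.Res
import Pool.Agent.W418.LU2.Lo

/-!
# The local ring of `D[t]` at the extension of the maximal ideal
-/

set_option autoImplicit false

universe u

namespace Pool.Agent.K6.H25.LDU

open IsLocalRing MvPolynomial Pool.Agent.W418.LU2

/-- The ring `D[t]`. -/
noncomputable def S0 (D : Type u) {F : Type u} [CommRing D] [Field F] [Algebra D F] {m : ℕ}
    (t : Fin m → F) : Subring F :=
  ((aeval t : MvPolynomial (Fin m) D →ₐ[D] F) : MvPolynomial (Fin m) D →+* F).range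

section

variable {D F : Type u} [CommRing D] [Field F] [Algebra D F]

lemma aeval_mem_S0 {m : ℕ} (t : Fin m → F) (P : MvPolynomial (Fin m) D) : aeval t P ∈ S0 D t :=
  ⟨P, rfl⟩

lemma S0_le {m : ℕ} (t : Fin m → F) (A : Subring F) (hA : ∀ c : D, algebraMap D F c ∈ A)
    (h : ∀ i, t i ∈ A) : S0 D t ≤ A := by
  rintro _ ⟨P, rfl⟩
  induction P using MvPolynomial.induction_on with
  | C a =>
    change aeval t (C a) ∈ A
    rw [aeval_C]
    exact hA a
  | add a b ha hb =>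
    rw [map_add]
    exact A.add_mem ha hb
  | mul_X a i ha =>
    rw [map_mul]
    refine A.mul_mem ha ?_
    simpa using h i

end

variable {D F : Type u} [CommRing D] [IsDomain D] [IsDiscreteValuationRing D] [Field F] [Algebra D F]

lemma C_dvd_iff {ι : Type*} {π : D} (hπ : Irreducible π) (P : MvPolynomial ι D) :
    C π ∣ P ↔ map (residue D) P = 0 := by
  rw [C_dvd_iff_dvd_coeff]
  constructor
  · intro h
    ext n
    rw [coeff_map, coeff_zero, residue_eq_zero_iff, hπ.maximalIdeal_eq,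
      Ideal.mem_span_singleton]
    exact h n
  · intro h n
    have h1 := congrArg (coeff n) h
    rwa [coeff_map, coeff_zero, residue_eq_zero_iff, hπ.maximalIdeal_eq,
      Ideal.mem_span_singleton] at h1

lemma C_irr (ι : Type*) {π : D} (hπ : Irreducible π) : Irreducible (C π : MvPolynomial ι D) :=
  ((prime_C_iff ι).2 hπ.prime).irreducible

theorem dvr_lo [FaithfulSMul D F] (W : ValuationSubring F) (hD : ∀ c : D, algebraMap D F c ∈ W)
    {π : D} (hπ : Irreducible π) (hp : (algebraMap D F π)⁻¹ ∉ W) {m : ℕ} (t : Fin m → F)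
    (htW : ∀ i, t i ∈ W)
    (ht : ∀ P : MvPolynomial (Fin m) D, map (residue D) P ≠ 0 →
      aeval t P ∈ W ∧ (aeval t P)⁻¹ ∈ W ∧ aeval t P ≠ 0) :
    IsDiscreteValuationRing (lo W.toSubring (S0 D t)) := by
  set R' := lo W.toSubring (S0 D t) with hR'
  have hR'W : R' ≤ W.toSubring := lo_le (S0_le t _ hD htW)
  have hpR : algebraMap D F π ∈ R' := by
    refine le_lo _ _ ?_
    have h := aeval_mem_S0 t (C π : MvPolynomial (Fin m) D)
    rwa [aeval_C] at h
  have hp0 : algebraMap D F π ≠ 0 := by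
    intro h
    exact hπ.ne_zero (FaithfulSMul.algebraMap_injective D F (by rw [h, map_zero]))
  have hCirr : Irreducible (C π : MvPolynomial (Fin m) D) := C_irr _ hπ
  -- factorization
  have hfac : ∀ x ∈ R', x ≠ 0 → ∃ (n : ℕ) (u : F), u ∈ R' ∧ u⁻¹ ∈ R' ∧ u ≠ 0 ∧
      x = (algebraMap D F π) ^ n * u := by
    rintro x ⟨a, ⟨P, rfl⟩, b, hb, hb0, hbW, rfl⟩ hx
    have hP : P ≠ 0 := by
      rintro rfl
      apply hx
      simp
    obtain ⟨n, P₁, hP₁, rfl⟩ := WfDvdMonoid.max_power_factor hP hCirr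
    obtain ⟨h1, h2, h3⟩ := ht P₁ fun h0 => hP₁ ((C_dvd_iff hπ P₁).2 h0)
    refine ⟨n, aeval t P₁ * b⁻¹, ?_, ?_, mul_ne_zero h3 (inv_ne_zero hb0), ?_⟩
    · exact ⟨_, aeval_mem_S0 t P₁, b, hb, hb0, hbW, rfl⟩
    · rw [mul_inv, inv_inv, mul_comm]
      exact ⟨b, hb, _, aeval_mem_S0 t P₁, h3, h2, rfl⟩
    · change aeval t (C π ^ n * P₁) * b⁻¹ = _
      rw [map_mul, map_pow, aeval_C]
      ring
  have hpnu : ¬ IsUnit (⟨algebraMap D F π, hpR⟩ : R') := by
    intro h
    obtain ⟨b, hb⟩ := isUnit_iff_exists_inv.1 h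
    have h5 : algebraMap D F π * b = 1 := congrArg Subtype.val hb
    apply hp
    rw [← eq_inv_of_mul_eq_one_right h5]
    exact hR'W b.2
  have hunit : ∀ (x : R'), x ≠ 0 → ∃ (n : ℕ) (u : R'ˣ),
      x = ⟨algebraMap D F π, hpR⟩ ^ n * u := by
    rintro ⟨x, hx⟩ hx0
    obtain ⟨n, u, hu, hu', hu0, rfl⟩ := hfac x hx (fun h => hx0 (Subtype.ext h))
    refine ⟨n, ⟨⟨u, hu⟩, ⟨u⁻¹, hu'⟩, Subtype.ext (mul_inv_cancel₀ hu0),
      Subtype.ext (inv_mul_cancel₀ hu0)⟩, ?_⟩
    exact Subtype.ext (by simp)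
  refine IsDiscreteValuationRing.ofHasUnitMulPowIrreducibleFactorization
    ⟨⟨algebraMap D F π, hpR⟩, ⟨hpnu, ?_⟩, ?_⟩
  · intro a b hab
    have hab0 : a * b ≠ 0 := by
      rw [← hab]
      intro h
      exact hp0 (congrArg Subtype.val h)
    obtain ⟨i, u, hu⟩ := hunit a (left_ne_zero_of_mul hab0)
    obtain ⟨j, v, hv⟩ := hunit b (right_ne_zero_of_mul hab0)
    rcases Nat.eq_zero_or_pos i with hi | hi
    · left
      rw [hu, hi, pow_zero, one_mul]
      exact u.isUnit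
    rcases Nat.eq_zero_or_pos j with hj | hj
    · right
      rw [hv, hj, pow_zero, one_mul]
      exact v.isUnit
    exfalso
    obtain ⟨i', rfl⟩ := Nat.exists_eq_succ_of_ne_zero hi.ne'
    obtain ⟨j', rfl⟩ := Nat.exists_eq_succ_of_ne_zero hj.ne'
    apply hpnu
    have hq0 : (⟨algebraMap D F π, hpR⟩ : R') ≠ 0 := fun h => hp0 (congrArg Subtype.val h)
    have h1 : (⟨algebraMap D F π, hpR⟩ : R') * 1 = ⟨algebraMap D F π, hpR⟩ *
        (⟨algebraMap D F π, hpR⟩ * (⟨algebraMap D F π, hpR⟩ ^ i' * u *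
          ⟨algebraMap D F π, hpR⟩ ^ j' * v)) := by
      conv_lhs => rw [mul_one, hab, hu, hv]
      rw [Nat.succ_eq_add_one, Nat.succ_eq_add_one]
      ring
    have h2 := mul_left_cancel₀ hq0 h1
    exact isUnit_iff_exists_inv.2 ⟨_, h2.symm⟩
  · intro x hx
    obtain ⟨n, u, hu⟩ := hunit x hx
    exact ⟨n, u, hu.symm⟩

end Pool.Agent.K6.H25.LDU
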