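import Mathlib

/-!
# The relative dimension of a field over a Dedekind domain
-/

set_option autoImplicit false

universe u

namespace Pool.Agent.K6.H25.LDU

open Cardinal

/-- The dimension of a field over a ring `O`: the transcendence degree over the image of `O`, plus
one if `O` is embedded. -/
noncomputable def kd {O κ : Type u} [CommRing O] [Field κ] (φ : O →+* κ) : Cardinal.{u} :=
  Algebra.trdeg φ.range κ + (open Classical in if Function.Injective φ then 1 else 0)

lemma trdeg_range (R κ : Type u) [CommRing R] [IsDomain R] [Field κ] [Algebra R κ]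
    [FaithfulSMul R κ] (S : Subring κ) (h : (algebraMap R κ).range = S) :
    Algebra.trdeg S κ = Algebra.trdeg R κ := by
  have hm : ∀ c : R, algebraMap R κ c ∈ S := by
    intro c; rw [← h]; exact ⟨c, rfl⟩
  let φ : R →+* S := (algebraMap R κ).codRestrict S hm
  let _ : Algebra R S := φ.toAlgebra
  have : IsScalarTower R S κ := IsScalarTower.of_algebraMap_eq fun c => rfl
  have hsurj : Function.Surjective (algebraMap R S) := by
    rintro ⟨x, hx⟩
    have hx' : x ∈ (algebraMap R κ).range := by rw [h]; exact hx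
    obtain ⟨c, hc⟩ := hx'
    exact ⟨c, Subtype.ext hc⟩
  have hf1 : FaithfulSMul R S := (faithfulSMul_iff_algebraMap_injective R S).2 fun a b hab =>
    FaithfulSMul.algebraMap_injective R κ (congrArg Subtype.val hab)
  have hf2 : FaithfulSMul S κ := (faithfulSMul_iff_algebraMap_injective S κ).2
    Subtype.val_injective
  have halg : Algebra.IsAlgebraic R S := by
    refine ⟨fun x => ?_⟩
    obtain ⟨c, rfl⟩ := hsurj x
    exact isAlgebraic_algebraMap c
  have h2 : Algebra.trdeg R S + Algebra.trdeg S κ = Algebra.trdeg R κ :=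
    _root_.trdeg_add_eq R S
  rw [_root_.trdeg_eq_zero, zero_add] at h2
  exact h2

lemma kd_inj {O κ : Type u} [CommRing O] [IsDomain O] [Field κ] [Algebra O κ] [FaithfulSMul O κ]
    (φ : O →+* κ) (h : φ = algebraMap O κ) : kd φ = Algebra.trdeg O κ + 1 := by
  subst h
  unfold kd
  rw [if_pos (FaithfulSMul.algebraMap_injective O κ), trdeg_range O κ _ rfl]

lemma kd_ninj {O κ : Type u} [CommRing O] [Field κ] (φ : O →+* κ) (hφ : ¬ Function.Injective φ)
    (k : Type u) [Field k] [Algebra k κ] (h : (algebraMap k κ).range = φ.range) :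
    kd φ = Algebra.trdeg k κ := by
  unfold kd
  rw [if_neg hφ, trdeg_range k κ _ h, add_zero]

lemma trdeg_alg (O L κ : Type u) [CommRing O] [IsDomain O] [CommRing L] [IsDomain L] [Field κ]
    [Algebra O L] [Algebra L κ] [Algebra O κ] [IsScalarTower O L κ] [FaithfulSMul O L]
    [FaithfulSMul L κ] [Algebra.IsAlgebraic O L] : Algebra.trdeg O κ = Algebra.trdeg L κ := by
  have h2 : Algebra.trdeg O L + Algebra.trdeg L κ = Algebra.trdeg O κ :=
    _root_.trdeg_add_eq O L
  rw [_root_.trdeg_eq_zero, zero_add] at h2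
  exact h2.symm

lemma kd_le_of_surj {O κ κ' : Type u} [CommRing O] [Field κ] [Field κ'] (φ : O →+* κ) (f : κ →+* κ')
    (hf : Function.Surjective f) : kd (f.comp φ) ≤ kd φ := by
  let _ : Algebra φ.range κ' := (f.comp φ.range.subtype).toAlgebra
  have hff : FaithfulSMul φ.range κ' := (faithfulSMul_iff_algebraMap_injective φ.range κ').2
    (f.injective.comp Subtype.val_injective)
  let F : κ →ₐ[φ.range] κ' := { f with commutes' := fun c => rfl }
  have h1 := _root_.lift_trdeg_le_of_surjective F hf
  rw [Cardinal.lift_id, Cardinal.lift_id] at h1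
  have h2 : Algebra.trdeg (f.comp φ).range κ' = Algebra.trdeg φ.range κ' := by
    refine trdeg_range φ.range κ' _ ?_
    ext z
    constructor
    · rintro ⟨⟨_, ⟨c, rfl⟩⟩, rfl⟩
      exact ⟨c, rfl⟩
    · rintro ⟨c, rfl⟩
      exact ⟨⟨_, ⟨c, rfl⟩⟩, rfl⟩
  unfold kd
  rw [h2]
  by_cases h : Function.Injective φ
  · have h3 : Function.Injective (f.comp φ) := f.injective.comp h
    rw [if_pos h3, if_pos h]
    exact add_le_add_left h1 1
  · have h3 : ¬ Function.Injective (f.comp φ) := fun h4 => h (Function.Injective.of_comp h4)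
    rw [if_neg h3, if_neg h]
    exact add_le_add_left h1 0

lemma kd_congr {O κ κ' : Type u} [CommRing O] [Field κ] [Field κ'] (φ : O →+* κ) (φ' : O →+* κ')
    (f : κ →+* κ') (hf : Function.Surjective f) (h : f.comp φ = φ') : kd φ' = kd φ := by
  subst h
  refine le_antisymm (kd_le_of_surj φ f hf) ?_
  let e : κ ≃+* κ' := RingEquiv.ofBijective f ⟨f.injective, hf⟩
  have h1 := kd_le_of_surj (f.comp φ) e.symm.toRingHom e.symm.surjective
  have h2 : e.symm.toRingHom.comp (f.comp φ) = φ := by
    ext c
    exact e.symm_apply_apply (φ c)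
  rwa [h2] at h1

end Pool.Agent.K6.H25.LDU
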