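import Pool.Agent.K6.H34.LU.C
import Pool.Agent.K6.H25.LDU.Dvr

/-!
# A valuation of rank one of mixed type over a discrete valuation ring
-/

set_option autoImplicit false
set_option linter.unusedVariables false
set_option linter.unusedSectionVars false

universe u

namespace Pool.Agent.K6.H25.LDU

open IsLocalRing Pool.Agent.W418.LU2 Pool.Agent.TH188.QS Pool.Agent.H176.DT Pool.Agent.R187.CT
open Pool.Agent.K6.H34.LU

/-- Log uniformization for the valuations of rank one of the schemes of finite type and of dimension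
at most `d` over discrete valuation rings of characteristic zero, centred on the closed fibre, with
algebraic residue fields. -/
def LUM (d : ℕ) : Prop :=
  ∀ (R F : Type u) [CommRing R] [IsDomain R] [IsDiscreteValuationRing R] [CharZero R] [Field F]
    [Algebra R F] [FaithfulSMul R F] (V : ValuationSubring F) (A : Subalgebra R F), A.FG →
    (∀ z : F, Fr A.toSubring z) → A.toSubring ≤ V.toSubring → Algebra.trdeg R F + 1 ≤ d →
    V ≠ ⊤ → (∀ V' : ValuationSubring F, V ≤ V' → V' = V ∨ V' = ⊤) →
    (∀ c ∈ maximalIdeal R, V.valuation (algebraMap R F c) < 1) →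
    (∀ z ∈ V, ∃ P : Polynomial R, (∃ i, IsUnit (P.coeff i)) ∧
      V.valuation (Polynomial.aeval z P) < 1) →
    LogUnif V A.toSubring

theorem good_mixed {d : ℕ} (hd : LUM.{u} d) {D F : Type u} [CommRing D] [IsDomain D]
    [IsDiscreteValuationRing D] [CharZero D] [Field F] [Algebra D F] [FaithfulSMul D F]
    (W : ValuationSubring F) (hD : ∀ c : D, algebraMap D F c ∈ W)
    {π : D} (hπ : Irreducible π) (hp : (algebraMap D F π)⁻¹ ∉ W)
    (h1 : ∀ W' : ValuationSubring F, W ≤ W' → W' = W ∨ W' = ⊤) {m : ℕ} (t : Fin m → F)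
    (htW : ∀ i, t i ∈ W)
    (ht : ∀ P : MvPolynomial (Fin m) D, MvPolynomial.map (residue D) P ≠ 0 →
      MvPolynomial.aeval t P ∈ W ∧ (MvPolynomial.aeval t P)⁻¹ ∈ W ∧ MvPolynomial.aeval t P ≠ 0)
    (hz : ∀ z ∈ W, ∃ P : Polynomial (MvPolynomial (Fin m) D),
      (∃ i, MvPolynomial.map (residue D) (P.coeff i) ≠ 0) ∧
        W.valuation (Polynomial.eval₂ ((MvPolynomial.aeval t : MvPolynomial (Fin m) D →ₐ[D] F) :
          MvPolynomial (Fin m) D →+* F) z P) < 1)
    (htr : Algebra.trdeg D F + 1 ≤ m + d) : Good (algebraMap D F) W := by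
  classical
  have hRf : (Set.range t).Finite := Set.finite_range t
  refine ⟨Set.range t, hRf, fun T hT hTW hTF => ?_⟩
  refine gp_move hRf (fun u hu => ⟨?_, hTF u hu⟩) ?_
  · obtain ⟨i, rfl⟩ := hu
    exact htW i
  rw [closure_closure_union, Set.union_assoc]
  set A := Subring.closure (((algebraMap D F).range : Set F) ∪ (T ∪ Set.range t)) with hA
  have hAW : A ≤ W.toSubring := by
    rw [hA, Subring.closure_le]
    rintro z (hz | hz | ⟨i, rfl⟩)
    · exact hTW (Subring.subset_closure (Or.inl hz))
    · exact hTW (Subring.subset_closure (Or.inr hz))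
    · exact htW i
  have hS0A : S0 D t ≤ A := S0_le t A (fun c => Subring.subset_closure (Or.inl ⟨c, rfl⟩))
    fun i => Subring.subset_closure (Or.inr (Or.inr ⟨i, rfl⟩))
  -- the base ring
  let R' : Subring F := lo W.toSubring (S0 D t)
  have hdvr : IsDiscreteValuationRing R' := dvr_lo W hD hπ hp t htW ht
  have hcF : CharZero F := charZero_of_injective_algebraMap
    (FaithfulSMul.algebraMap_injective D F)
  have hchar : CharZero R' := ⟨fun a b h => by
    have h2 : ((a : R') : F) = ((b : R') : F) := congrArg Subtype.val h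
    exact_mod_cast h2⟩
  have hR'W : R' ≤ W.toSubring := lo_le (S0_le t _ hD htW)
  have hR'lo : R' ≤ lo W.toSubring A := lo_mono hS0A
  let E : Subfield F := Subfield.closure ((R' : Set F) ∪ T)
  have hR'E : ∀ r : R', (r : F) ∈ E := fun r => Subfield.subset_closure (Or.inl r.2)
  have hTE : ∀ z ∈ T, z ∈ E := fun z hz => Subfield.subset_closure (Or.inr hz)
  let φ : R' →+* E := R'.subtype.codRestrict E hR'E
  let _ : Algebra R' E := φ.toAlgebra
  have htow : IsScalarTower R' E F := IsScalarTower.of_algebraMap_eq fun c => rfl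
  have hfE : FaithfulSMul R' E := (faithfulSMul_iff_algebraMap_injective R' E).2 fun a b h => by
    have h2 : ((φ a : E) : F) = ((φ b : E) : F) := congrArg Subtype.val h
    exact Subtype.ext h2
  have hfF : FaithfulSMul R' F := (faithfulSMul_iff_algebraMap_injective R' F).2
    Subtype.val_injective
  let f : E →+* F := E.subtype
  let T' : Set E := {e | (e : F) ∈ T}
  have hT'f : T'.Finite := hT.preimage Subtype.val_injective.injOn
  let B : Subalgebra R' E := Algebra.adjoin R' T'
  have hloW : lo W.toSubring A ≤ W.toSubring := lo_le hAW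
  -- the model
  have hBmap : B.toSubring.map f = Subring.closure ((R' : Set F) ∪ T) := by
    have h1 : B.toSubring = Subring.closure (Set.range (algebraMap R' E) ∪ T') := by
      rw [← Algebra.adjoin_eq_ring_closure]
    rw [h1, RingHom.map_closure, Set.image_union]
    congr 2
    · ext z
      constructor
      · rintro ⟨_, ⟨a, rfl⟩, rfl⟩
        exact a.2
      · intro hz
        exact ⟨_, ⟨⟨z, hz⟩, rfl⟩, rfl⟩
    · ext z
      constructor
      · rintro ⟨e, he, rfl⟩
        exact he
      · intro hz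
        exact ⟨⟨z, hTE z hz⟩, hz, rfl⟩
  have hBlo : B.toSubring.map f ≤ lo W.toSubring A := by
    rw [hBmap, Subring.closure_le]
    rintro z (hz | hz)
    · exact hR'lo hz
    · exact le_lo _ _ (Subring.subset_closure (Or.inr (Or.inl hz)))
  have hDR : ∀ c : D, algebraMap D F c ∈ R' := fun c => le_lo _ _ (by
    have h := aeval_mem_S0 t (MvPolynomial.C c : MvPolynomial (Fin m) D)
    rwa [MvPolynomial.aeval_C] at h)
  have hAB : A ≤ B.toSubring.map f := by
    rw [hBmap, hA, Subring.closure_le]
    rintro z (⟨a, rfl⟩ | hz | ⟨i, rfl⟩)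
    · exact Subring.subset_closure (Or.inl (hDR a))
    · exact Subring.subset_closure (Or.inr hz)
    · refine Subring.subset_closure (Or.inl (le_lo _ _ ?_))
      have h2 := aeval_mem_S0 t (MvPolynomial.X i : MvPolynomial (Fin m) D)
      rwa [MvPolynomial.aeval_X] at h2
  refine gp_unloc hAW hAB hBlo (gp_map f W ?_)
  have hBW : B.toSubring ≤ (W.comap f).toSubring := by
    intro b hb
    exact hloW (hBlo ⟨b, hb, rfl⟩)
  have hBfr : ∀ z : E, Fr B.toSubring z := by
    rintro ⟨z, hz⟩
    have hz' : z ∈ Subfield.closure ((R' : Set F) ∪ T) := hz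
    rw [Subfield.mem_closure_iff] at hz'
    obtain ⟨r, hr, s, hs, hrs⟩ := hz'
    rw [← hBmap] at hr hs
    obtain ⟨b, hb, hbr⟩ := hr
    obtain ⟨c, hc, hcs⟩ := hs
    by_cases hc0 : c = 0
    · refine ⟨0, B.zero_mem, 1, B.one_mem, one_ne_zero, Subtype.ext ?_⟩
      change z = _
      rw [← hrs, ← hcs, hc0]
      simp
    · refine ⟨b, hb, c, hc, hc0, Subtype.ext ?_⟩
      change z = _
      rw [← hrs, ← hbr, ← hcs, div_eq_mul_inv]
      rfl
  have hBFG : B.FG := by
    refine ⟨hT'f.toFinset, ?_⟩
    rw [Set.Finite.coe_toFinset]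
  have hft : Algebra.FiniteType R' B := (Subalgebra.fg_iff_finiteType B).1 hBFG
  have hnoe : IsNoetherianRing B := Algebra.FiniteType.isNoetherianRing R' B
  have hnoe' : IsNoetherianRing B.toSubring := hnoe
  have htrE : Algebra.trdeg R' E + 1 ≤ d := by
    let ψ : D →+* R' := (algebraMap D F).codRestrict R' hDR
    let _ : Algebra D R' := ψ.toAlgebra
    have hst : IsScalarTower D R' F := IsScalarTower.of_algebraMap_eq fun c => rfl
    have hDR' : FaithfulSMul D R' := (faithfulSMul_iff_algebraMap_injective D R').2 fun a b h =>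
      FaithfulSMul.algebraMap_injective D F (congrArg Subtype.val h)
    let ιE : E →ₐ[R'] F := { f with commutes' := fun r => rfl }
    have h1 : Algebra.trdeg R' E ≤ Algebra.trdeg R' F :=
      _root_.trdeg_le_of_injective ιE f.injective
    have h2 : Algebra.trdeg D R' + Algebra.trdeg R' F = Algebra.trdeg D F :=
      _root_.trdeg_add_eq D R'
    have h3 : (m : Cardinal.{u}) ≤ Algebra.trdeg D R' := by
      let t' : Fin m → R' := fun i => ⟨t i, le_lo _ _ (by
        have h2 := aeval_mem_S0 t (MvPolynomial.X i : MvPolynomial (Fin m) D)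
        rwa [MvPolynomial.aeval_X] at h2)⟩
      have hai : AlgebraicIndependent D t := by
        rw [algebraicIndependent_iff]
        intro P hP
        by_contra h0
        obtain ⟨n, P₁, hP₁, rfl⟩ := WfDvdMonoid.max_power_factor h0 (C_irr (Fin m) hπ)
        obtain ⟨h1, h2, h3⟩ := ht P₁ fun h5 => hP₁ ((C_dvd_iff hπ P₁).2 h5)
        rw [map_mul, map_pow, MvPolynomial.aeval_C] at hP
        rcases mul_eq_zero.1 hP with h4 | h4
        · have h6 : algebraMap D F π ≠ 0 := fun h =>
            hπ.ne_zero (FaithfulSMul.algebraMap_injective D F (by rw [h, map_zero]))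
          exact pow_ne_zero n h6 h4
        · exact h3 h4
      have h4 : AlgebraicIndependent D t' := by
        let ιR : R' →ₐ[D] F := { R'.subtype with commutes' := fun c => rfl }
        exact AlgebraicIndependent.of_comp ιR hai
      have h5 := h4.lift_cardinalMk_le_trdeg
      simpa using h5
    have h4 : (m : Cardinal.{u}) + (Algebra.trdeg R' E + 1) ≤ m + d := by
      rw [← add_assoc]
      exact (add_le_add_left ((add_le_add h3 h1).trans h2.le) 1).trans htr
    rw [add_comm (m : Cardinal.{u}), add_comm (m : Cardinal.{u})] at h4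
    exact (Cardinal.add_le_add_iff_of_lt_aleph0 (Cardinal.natCast_lt_aleph0 (n := m))).1 h4
  have hval : ∀ x : E, W.valuation (f x) < 1 → (W.comap f).valuation x < 1 := by
    intro x hx
    rw [vlt] at hx ⊢
    rcases hx with hx | hx
    · exact Or.inl (f.injective (by rw [hx, map_zero]))
    · right
      intro h
      apply hx
      rw [← map_inv₀]
      exact h
  refine gp_of_logUnif ⟨hBW, hBfr⟩ (hd R' E (W.comap f) B hBFG hBfr hBW htrE ?_
    (fun U hU => rank_comap _ W h1 U hU) ?_ ?_)
  · intro htop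
    apply hp
    have h2 : (⟨algebraMap D F π, hR'E ⟨_, hDR π⟩⟩ : E)⁻¹ ∈ W.comap f := by
      rw [htop]
      trivial
    have h3 : f ((⟨algebraMap D F π, hR'E ⟨_, hDR π⟩⟩ : E)⁻¹) ∈ W := h2
    rwa [map_inv₀] at h3
  · intro c hc
    apply hval
    rw [vlt]
    change (c : F) = 0 ∨ (c : F)⁻¹ ∉ W
    by_contra hcon
    push Not at hcon
    apply (mem_maximalIdeal _).1 hc
    have h2 : (c : F)⁻¹ ∈ R' := inv_mem_lo (S0_le t _ hD htW) c.2 hcon.1 hcon.2
    exact isUnit_iff_exists_inv.2 ⟨⟨_, h2⟩, Subtype.ext (mul_inv_cancel₀ hcon.1)⟩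
  · intro z hzW
    obtain ⟨P, ⟨i, hi⟩, hP⟩ := hz (z : F) hzW
    let g : MvPolynomial (Fin m) D →+* R' :=
      ((MvPolynomial.aeval t : MvPolynomial (Fin m) D →ₐ[D] F) :
          MvPolynomial (Fin m) D →+* F).codRestrict R' fun Q => le_lo _ _ (aeval_mem_S0 t Q)
    refine ⟨P.map g, ⟨i, ?_⟩, ?_⟩
    · rw [Polynomial.coeff_map]
      obtain ⟨h2, h3, h4⟩ := ht _ hi
      have h5 : (MvPolynomial.aeval t (P.coeff i))⁻¹ ∈ R' :=
        inv_mem_lo (S0_le t _ hD htW) (le_lo _ _ (aeval_mem_S0 t _)) h4 h3
      exact isUnit_iff_exists_inv.2 ⟨⟨_, h5⟩, Subtype.ext (mul_inv_cancel₀ h4)⟩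
    · apply hval
      have h2 : f (Polynomial.aeval z (P.map g)) =
          Polynomial.eval₂ ((MvPolynomial.aeval t : MvPolynomial (Fin m) D →ₐ[D] F) :
            MvPolynomial (Fin m) D →+* F) (z : F) P := by
        rw [Polynomial.aeval_def, Polynomial.eval₂_map, Polynomial.hom_eval₂]
        rfl
      rw [h2]
      exact hP

end Pool.Agent.K6.H25.LDU
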