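import Pool.Agent.K6.H25.LDU.Kd

/-!
# Lifts of transcendence bases of residue fields
-/

set_option autoImplicit false

universe u

namespace Pool.Agent.K6.H25.LDU

open Cardinal IsLocalRing MvPolynomial

lemma vlt {F : Type*} [Field F] (V : ValuationSubring F) (x : F) :
    V.valuation x < 1 ↔ x = 0 ∨ x⁻¹ ∉ V := by
  by_cases h0 : x = 0
  · simp [h0]
  · have h1 : V.valuation x ≠ 0 := (Valuation.ne_zero_iff _).2 h0
    rw [← V.valuation_le_one_iff, map_inv₀, not_le]
    constructor
    · intro h
      exact Or.inr ((one_lt_inv₀ (zero_lt_iff.2 h1)).2 h)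
    · rintro (h | h)
      · exact absurd h h0
      · exact (one_lt_inv₀ (zero_lt_iff.2 h1)).1 h

lemma unit_of_res {F : Type u} [Field F] (W : ValuationSubring F) {x : F} (hx : x ∈ W) (h : residue W ⟨x, hx⟩ ≠ 0) :
    x⁻¹ ∈ W ∧ x ≠ 0 := by
  have h4 : IsUnit (⟨x, hx⟩ : W) := by
    by_contra h5
    exact h ((residue_eq_zero_iff _).2 ((mem_maximalIdeal _).2 h5))
  obtain ⟨b, hb⟩ := isUnit_iff_exists_inv.1 h4
  have h5 : x * b = 1 := congrArg Subtype.val hb
  refine ⟨?_, left_ne_zero_of_mul_eq_one h5⟩
  rw [← eq_inv_of_mul_eq_one_right h5]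
  exact b.2

/-- Evaluation of `finSuccEquiv`. -/
lemma eval_fse {D F : Type u} [CommRing D] [Field F] [Algebra D F] {m : ℕ} (t : Fin m → F) (z : F)
    (Q : MvPolynomial (Fin (m + 1)) D) :
    Polynomial.eval₂ ((aeval t : MvPolynomial (Fin m) D →ₐ[D] F) : MvPolynomial (Fin m) D →+* F) z
      (finSuccEquiv D m Q) = aeval (Fin.cons z t : Fin (m + 1) → F) Q := by
  have : (Polynomial.eval₂RingHom
      ((aeval t : MvPolynomial (Fin m) D →ₐ[D] F) : MvPolynomial (Fin m) D →+* F) z).comp
      ((finSuccEquiv D m : MvPolynomial (Fin (m + 1)) D ≃ₐ[D] _) : MvPolynomial (Fin (m + 1)) D →+* _) =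
      ((aeval (Fin.cons z t : Fin (m + 1) → F) : MvPolynomial (Fin (m + 1)) D →ₐ[D] F) :
        MvPolynomial (Fin (m + 1)) D →+* F) := by
    apply MvPolynomial.ringHom_ext
    · intro n
      have h1 : finSuccEquiv D m (C n) = Polynomial.C (C n) := by
        have h2 : (finSuccEquiv D m).symm (Polynomial.C (C n)) = C n :=
          RingHom.congr_fun (finSuccEquiv_comp_C_eq_C (R := D) m) n
        rw [← h2, AlgEquiv.apply_symm_apply]
      simp [h1]
    · intro i
      refine Fin.cases ?_ (fun j => ?_) i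
      · simp [finSuccEquiv_X_zero]
      · simp [finSuccEquiv_X_succ]
  exact RingHom.congr_fun this Q

variable {D F : Type u} [CommRing D] [IsLocalRing D] [Field F] [Algebra D F]

/-- The residue of a value of a polynomial. -/
lemma res_aeval (W : ValuationSubring F) (hD : ∀ c : D, algebraMap D F c ∈ W)
    [Algebra (ResidueField D) (ResidueField W)]
    (hψ : ∀ c : D, algebraMap (ResidueField D) (ResidueField W) (residue D c) =
      residue W ⟨algebraMap D F c, hD c⟩) {ι : Type*} (t : ι → F) (ht : ∀ i, t i ∈ W)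
    (P : MvPolynomial ι D) :
    ∃ hP : aeval t P ∈ W, residue W ⟨aeval t P, hP⟩ =
      aeval (fun i => residue W ⟨t i, ht i⟩) (map (residue D) P) := by
  let g : MvPolynomial ι D →+* W := eval₂Hom ((algebraMap D F).codRestrict W.toSubring hD)
    (fun i => (⟨t i, ht i⟩ : W))
  have h1 : ∀ Q, ((g Q : W) : F) = aeval t Q := by
    intro Q
    have h2 : W.subtype.comp g = ((aeval t : MvPolynomial ι D →ₐ[D] F) : MvPolynomial ι D →+* F) := by
      apply MvPolynomial.ringHom_ext
      · intro n
        simp [g]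
      · intro i
        simp [g]
    exact RingHom.congr_fun h2 Q
  have h3 : ∀ Q, residue W (g Q) = aeval (fun i => residue W ⟨t i, ht i⟩) (map (residue D) Q) := by
    intro Q
    have h2 : (residue W).comp g = ((aeval (fun i => residue W ⟨t i, ht i⟩) :
        MvPolynomial ι (ResidueField D) →ₐ[ResidueField D] ResidueField W) :
          MvPolynomial ι (ResidueField D) →+* ResidueField W).comp (map (residue D)) := by
      apply MvPolynomial.ringHom_ext
      · intro n
        simp only [g, RingHom.comp_apply, coe_eval₂Hom, eval₂_C, map_C, RingHom.coe_coe, aeval_C]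
        exact (hψ n).symm
      · intro i
        simp only [g, RingHom.comp_apply, coe_eval₂Hom, eval₂_X, map_X, RingHom.coe_coe, aeval_X]
    exact RingHom.congr_fun h2 Q
  have h4 : aeval t P ∈ W := by
    rw [← h1]
    exact (g P).2
  refine ⟨h4, ?_⟩
  rw [← h3]
  congr 1
  exact Subtype.ext (h1 P).symm

lemma map_fse {m : ℕ} (Q : MvPolynomial (Fin (m + 1)) D)
    (h : ∀ i, map (residue D) ((finSuccEquiv D m Q).coeff i) = 0) : map (residue D) Q = 0 := by
  ext n
  rw [coeff_map, coeff_zero]
  have h1 := congrArg (coeff n.tail) (h (n 0))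
  rw [coeff_map, coeff_zero, finSuccEquiv_coeff_coeff, Finsupp.cons_tail] at h1
  exact h1

/-- Lifts of a transcendence basis. -/
theorem exists_lift (W : ValuationSubring F) (hD : ∀ c : D, algebraMap D F c ∈ W)
    [Algebra (ResidueField D) (ResidueField W)]
    (hψ : ∀ c : D, algebraMap (ResidueField D) (ResidueField W) (residue D c) =
      residue W ⟨algebraMap D F c, hD c⟩)
    (hfin : Algebra.trdeg (ResidueField D) (ResidueField W) < ℵ₀) :
    ∃ (m : ℕ) (t : Fin m → F), Algebra.trdeg (ResidueField D) (ResidueField W) = m ∧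
      (∀ i, t i ∈ W) ∧
      (∀ P : MvPolynomial (Fin m) D, map (residue D) P ≠ 0 →
        aeval t P ∈ W ∧ (aeval t P)⁻¹ ∈ W ∧ aeval t P ≠ 0) ∧
      ∀ z ∈ W, ∃ P : Polynomial (MvPolynomial (Fin m) D), (∃ i, map (residue D) (P.coeff i) ≠ 0) ∧
        W.valuation (Polynomial.eval₂ ((aeval t : MvPolynomial (Fin m) D →ₐ[D] F) :
          MvPolynomial (Fin m) D →+* F) z P) < 1 := by
  obtain ⟨s, hs⟩ := exists_isTranscendenceBasis (ResidueField D) (ResidueField W)
  have h2 : Cardinal.mk s = Algebra.trdeg (ResidueField D) (ResidueField W) :=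
    hs.cardinalMk_eq_trdeg
  have hfin' := hfin
  rw [← h2, Cardinal.lt_aleph0_iff_finite] at hfin'
  have := Fintype.ofFinite s
  let e := (Fintype.equivFin s).symm
  choose l hl using fun w : s => residue_surjective (R := W) (w : ResidueField W)
  have hm : Algebra.trdeg (ResidueField D) (ResidueField W) = Fintype.card s := by
    rw [← h2, Cardinal.mk_fintype]
  let t : Fin (Fintype.card s) → F := fun i => ((l (e i) : W) : F)
  have htW : ∀ i, t i ∈ W := fun i => (l (e i)).2
  have hres : (fun i => residue W ⟨t i, htW i⟩) = (fun w : s => (w : ResidueField W)) ∘ e :=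
    funext fun i => hl (e i)
  have hai : AlgebraicIndependent (ResidueField D) (fun i => residue W ⟨t i, htW i⟩) := by
    rw [hres]
    exact hs.1.comp _ e.injective
  refine ⟨Fintype.card s, t, hm, htW, fun P hP => ?_, fun z hz => ?_⟩
  · obtain ⟨h3, h4⟩ := res_aeval W hD hψ t htW P
    have h5 : residue W ⟨aeval t P, h3⟩ ≠ 0 := by
      rw [h4]
      intro h0
      exact hP ((algebraicIndependent_iff.1 hai) _ h0)
    exact ⟨h3, unit_of_res W h3 h5⟩
  · -- the residue of z is algebraic
    let u : Fin (Fintype.card s + 1) → F := Fin.cons z t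
    have huW : ∀ i, u i ∈ W := by
      intro i
      refine Fin.cases ?_ (fun j => ?_) i
      · exact hz
      · exact htW j
    have hnot : ¬ AlgebraicIndependent (ResidueField D) (fun i => residue W ⟨u i, huW i⟩) := by
      intro h
      have h3 := h.lift_cardinalMk_le_trdeg
      rw [hm] at h3
      simp only [Cardinal.mk_fin, Cardinal.lift_natCast] at h3
      have h4 : Fintype.card s + 1 ≤ Fintype.card s := by exact_mod_cast h3
      omega
    rw [algebraicIndependent_iff] at hnot
    push Not at hnot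
    obtain ⟨Q, hQ, hQ0⟩ := hnot
    obtain ⟨Q', rfl⟩ := map_surjective (residue D) residue_surjective Q
    refine ⟨finSuccEquiv D _ Q', ?_, ?_⟩
    · by_contra hcon
      push Not at hcon
      exact hQ0 (map_fse Q' hcon)
    · rw [eval_fse, vlt]
      obtain ⟨h3, h4⟩ := res_aeval W hD hψ u huW Q'
      by_contra hcon
      push Not at hcon
      obtain ⟨h5, h6⟩ := hcon
      have h7 : residue W ⟨aeval u Q', h3⟩ * residue W ⟨(aeval u Q')⁻¹, h6⟩ = 1 := by
        rw [← map_mul, ← map_one (residue W)]
        congr 1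
        exact Subtype.ext (mul_inv_cancel₀ h5)
      rw [h4, hQ, zero_mul] at h7
      exact zero_ne_one h7

end Pool.Agent.K6.H25.LDU
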