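import Pool.Agent.K6.H25.LDU.Mix

/-!
# Valuations of rank one over a Dedekind domain
-/

set_option autoImplicit false
set_option linter.unusedVariables false
set_option linter.unusedSectionVars false

universe u

namespace Pool.Agent.K6.H25.LDU

open IsLocalRing Pool.Agent.W418.LU2 Pool.Agent.TH188.QS Pool.Agent.H176.DT Pool.Agent.R187.CT
open Pool.Agent.K6.H34.LU Cardinal

/-- The residue map of a ring in a valuation ring. -/
noncomputable def resO {O F : Type u} [CommRing O] [Field F] (ρ : O →+* F) (W : ValuationSubring F)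
    (h : ∀ c : O, ρ c ∈ W) : O →+* ResidueField W :=
  (residue W).comp (ρ.codRestrict W.toSubring h)

lemma resO_apply {O F : Type u} [CommRing O] [Field F] (ρ : O →+* F) (W : ValuationSubring F)
    (h : ∀ c : O, ρ c ∈ W) (c : O) : resO ρ W h c = residue W ⟨ρ c, h c⟩ := rfl

lemma good_range {O k F : Type u} [CommRing O] [CommRing k] [Field F] (ρ : O →+* F) (σ : k →+* F)
    (hr : σ.range = ρ.range) {W : ValuationSubring F} (h : Good σ W) : Good ρ W := by
  have hrg : ∀ T : Set F, rg σ T = rg ρ T := by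
    intro T
    unfold rg
    rw [hr]
  obtain ⟨T₀, hT₀, h⟩ := h
  refine ⟨T₀, hT₀, fun T hT hTW hTF => ?_⟩
  have h2 := h T hT
  rw [hrg T] at h2
  exact h2 hTW hTF

lemma good_loc {O L F : Type u} [CommRing O] [CommRing L] [Field F] (ρ : O →+* F) (σ : L →+* F)
    {W : ValuationSubring F} (hρσ : ∀ c : O, ∃ c' : L, σ c' = ρ c)
    (hσ : ∀ c : L, ∃ a s : O, ρ s ≠ 0 ∧ (ρ s)⁻¹ ∈ W ∧ σ c = ρ a * (ρ s)⁻¹)
    (h : Good σ W) : Good ρ W := by
  obtain ⟨T₀, hT₀, h⟩ := h
  refine ⟨T₀, hT₀, fun T hT hTW hTF => ?_⟩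
  have hAB : rg ρ T ≤ rg σ T := by
    refine Subring.closure_mono (Set.union_subset_union_left _ ?_)
    rintro _ ⟨a, rfl⟩
    obtain ⟨c, hc⟩ := hρσ a
    exact ⟨c, hc⟩
  have hBA : rg σ T ≤ lo W.toSubring (rg ρ T) := by
    refine Subring.closure_le.2 ?_
    rintro z (⟨c, rfl⟩ | hz)
    · obtain ⟨a, s, hs, hs', hc⟩ := hσ c
      exact ⟨ρ a, Subring.subset_closure (Or.inl ⟨a, rfl⟩), ρ s,
        Subring.subset_closure (Or.inl ⟨s, rfl⟩), hs, hs', hc⟩
    · exact le_lo _ _ (Subring.subset_closure (Or.inr hz))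
  refine gp_unloc hTW hAB hBA (h T hT ?_ fun t ht => fr_mono hAB (hTF t ht))
  exact fun z hz => lo_le hTW (hBA hz)

lemma res_inj {O F : Type u} [CommRing O] [Field F] (ρ : O →+* F) (W : ValuationSubring F)
    (h : ∀ c : O, ρ c ∈ W) (hi : Function.Injective (resO ρ W h)) : Function.Injective ρ := by
  intro a b hab
  apply hi
  rw [resO_apply, resO_apply]
  congr 1
  exact Subtype.ext hab

/-- The three cases. -/
lemma cases3 {O F : Type u} [CommRing O] [IsDedekindDomain O] [CharZero O] [Field F]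
    (ρ : O →+* F) (W : ValuationSubring F) (h : ∀ c : O, ρ c ∈ W) :
    (∃ (k : Type u) (_ : Field k) (_ : Algebra k F) (hk : ∀ c : k, algebraMap k F c ∈ W),
      (algebraMap k F).range = ρ.range ∧ kd ρ = Algebra.trdeg k F ∧ kd (resO ρ W h) = resTr W hk) ∨
    (∃ (k : Type u) (_ : Field k) (_ : Algebra k F) (hk : ∀ c : k, algebraMap k F c ∈ W),
      (∀ c : O, ∃ c' : k, algebraMap k F c' = ρ c) ∧
      (∀ c : k, ∃ a s : O, ρ s ≠ 0 ∧ (ρ s)⁻¹ ∈ W ∧ algebraMap k F c = ρ a * (ρ s)⁻¹) ∧
      kd ρ = Algebra.trdeg k F + 1 ∧ kd (resO ρ W h) = resTr W hk + 1) ∨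
    (∃ (D : Type u) (_ : CommRing D) (_ : IsDomain D) (_ : IsDiscreteValuationRing D)
      (_ : CharZero D) (_ : Algebra D F) (_ : FaithfulSMul D F)
      (hD : ∀ c : D, algebraMap D F c ∈ W) (_ : Algebra (ResidueField D) (ResidueField W)),
      (∀ c : D, algebraMap (ResidueField D) (ResidueField W) (residue D c) =
        residue W ⟨algebraMap D F c, hD c⟩) ∧
      (∀ c : O, ∃ c' : D, algebraMap D F c' = ρ c) ∧
      (∀ c : D, ∃ a s : O, ρ s ≠ 0 ∧ (ρ s)⁻¹ ∈ W ∧ algebraMap D F c = ρ a * (ρ s)⁻¹) ∧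
      kd ρ = Algebra.trdeg D F + 1 ∧
      kd (resO ρ W h) = Algebra.trdeg (ResidueField D) (ResidueField W)) := by
  classical
  by_cases hρ : Function.Injective ρ
  swap
  · left
    have hker : RingHom.ker ρ ≠ ⊥ := fun h0 => hρ ((RingHom.injective_iff_ker_eq_bot ρ).2 h0)
    have hprime : (RingHom.ker ρ).IsPrime := RingHom.ker_isPrime ρ
    have hmax : (RingHom.ker ρ).IsMaximal := hprime.isMaximal hker
    let _ : Field (O ⧸ RingHom.ker ρ) := Ideal.Quotient.field (RingHom.ker ρ)
    let σ : O ⧸ RingHom.ker ρ →+* F := Ideal.Quotient.lift (RingHom.ker ρ) ρ fun a ha => ha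
    let _ : Algebra (O ⧸ RingHom.ker ρ) F := σ.toAlgebra
    have hσ : ∀ c : O, algebraMap (O ⧸ RingHom.ker ρ) F (Ideal.Quotient.mk _ c) = ρ c :=
      fun c => rfl
    have hk : ∀ c : O ⧸ RingHom.ker ρ, algebraMap (O ⧸ RingHom.ker ρ) F c ∈ W := by
      intro c
      obtain ⟨c, rfl⟩ := Ideal.Quotient.mk_surjective c
      exact h c
    have hr : (algebraMap (O ⧸ RingHom.ker ρ) F).range = ρ.range := by
      ext z
      constructor
      · rintro ⟨c, rfl⟩
        obtain ⟨c, rfl⟩ := Ideal.Quotient.mk_surjective c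
        exact ⟨c, rfl⟩
      · rintro ⟨c, rfl⟩
        exact ⟨Ideal.Quotient.mk _ c, rfl⟩
    refine ⟨O ⧸ RingHom.ker ρ, inferInstance, inferInstance, hk, hr, kd_ninj ρ hρ _ hr, ?_⟩
    let _ : Algebra (O ⧸ RingHom.ker ρ) (ResidueField W) := (resHom W hk).toAlgebra
    refine kd_ninj _ (fun h0 => hρ (res_inj ρ W h h0)) (O ⧸ RingHom.ker ρ) ?_
    ext z
    constructor
    · rintro ⟨c, rfl⟩
      obtain ⟨c, rfl⟩ := Ideal.Quotient.mk_surjective c
      exact ⟨c, rfl⟩
    · rintro ⟨c, rfl⟩
      exact ⟨Ideal.Quotient.mk _ c, rfl⟩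
  right
  by_cases hres : Function.Injective (resO ρ W h)
  · left
    have hunit : ∀ s : O, s ≠ 0 → (ρ s)⁻¹ ∈ W ∧ ρ s ≠ 0 := fun s hs =>
      unit_of_res W (h s) fun h0 => hs (hres (by rw [resO_apply, h0, map_zero]))
    let L := FractionRing O
    let _ : Algebra O F := ρ.toAlgebra
    have hfO : FaithfulSMul O F := (faithfulSMul_iff_algebraMap_injective O F).2 hρ
    let _ : Algebra L F := FractionRing.liftAlgebra O F
    have htow : IsScalarTower O L F := inferInstance
    have hfr : ∀ c : L, ∃ a s : O, s ≠ 0 ∧ algebraMap L F c = ρ a * (ρ s)⁻¹ := by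
      intro c
      obtain ⟨a, s, hs, rfl⟩ := IsFractionRing.div_surjective (A := O) c
      refine ⟨a, s, nonZeroDivisors.ne_zero hs, ?_⟩
      rw [map_div₀, ← IsScalarTower.algebraMap_apply O L F, ← IsScalarTower.algebraMap_apply O L F,
        div_eq_mul_inv]
      rfl
    have hk : ∀ c : L, algebraMap L F c ∈ W := by
      intro c
      obtain ⟨a, s, hs, hc⟩ := hfr c
      rw [hc]
      exact W.mul_mem _ _ (h a) (hunit s hs).1
    have halg : Algebra.IsAlgebraic O L := IsLocalization.isAlgebraic L (nonZeroDivisors O)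
    have hfOL : FaithfulSMul O L := inferInstance
    have hfLF : FaithfulSMul L F := (faithfulSMul_iff_algebraMap_injective L F).2
      (algebraMap L F).injective
    refine ⟨L, inferInstance, inferInstance, hk, fun c => ⟨algebraMap O L c, ?_⟩, fun c => ?_, ?_,
      ?_⟩
    · rw [← IsScalarTower.algebraMap_apply O L F]
      rfl
    · obtain ⟨a, s, hs, hc⟩ := hfr c
      exact ⟨a, s, (hunit s hs).2, (hunit s hs).1, hc⟩
    · rw [kd_inj ρ rfl, trdeg_alg O L F]
    · let _ : Algebra O (ResidueField W) := (resO ρ W h).toAlgebra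
      let _ : Algebra L (ResidueField W) := (resHom W hk).toAlgebra
      have hfOW : FaithfulSMul O (ResidueField W) :=
        (faithfulSMul_iff_algebraMap_injective O (ResidueField W)).2 hres
      have hfLW : FaithfulSMul L (ResidueField W) :=
        (faithfulSMul_iff_algebraMap_injective L (ResidueField W)).2
          (algebraMap L (ResidueField W)).injective
      have htow2 : IsScalarTower O L (ResidueField W) := IsScalarTower.of_algebraMap_eq fun c => by
        change residue W ⟨ρ c, h c⟩ = residue W ⟨algebraMap L F (algebraMap O L c), _⟩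
        congr 1
        refine Subtype.ext ?_
        change ρ c = algebraMap L F (algebraMap O L c)
        rw [← IsScalarTower.algebraMap_apply O L F]
        rfl
      rw [kd_inj (resO ρ W h) rfl, trdeg_alg O L (ResidueField W)]
      rfl
  · right
    let P : Ideal O := RingHom.ker (resO ρ W h)
    have hP0 : P ≠ ⊥ := fun h0 => hres ((RingHom.injective_iff_ker_eq_bot _).2 h0)
    have hPp : P.IsPrime := RingHom.ker_isPrime _
    have hPm : P.IsMaximal := hPp.isMaximal hP0
    let D := Localization.AtPrime P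
    have hdvr : IsDiscreteValuationRing D :=
      IsLocalization.AtPrime.isDiscreteValuationRing_of_dedekind_domain O hP0 D
    have hunit : ∀ s : O, s ∉ P → (ρ s)⁻¹ ∈ W ∧ ρ s ≠ 0 := fun s hs =>
      unit_of_res W (h s) fun h0 => hs (by
        change resO ρ W h s = 0
        rw [resO_apply, h0])
    have hOD : Function.Injective (algebraMap O D) :=
      IsLocalization.injective D P.primeCompl_le_nonZeroDivisors
    have hcD : CharZero D := charZero_of_injective_algebraMap hOD
    let σ : D →+* F := IsLocalization.lift (M := P.primeCompl) (g := ρ) fun s =>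
      (hunit s s.2).2.isUnit
    have hσO : ∀ c : O, σ (algebraMap O D c) = ρ c := fun c => IsLocalization.lift_eq _ c
    have hfr : ∀ c : D, ∃ a s : O, s ∉ P ∧ c * algebraMap O D s = algebraMap O D a ∧
        σ c = ρ a * (ρ s)⁻¹ := by
      intro c
      obtain ⟨⟨a, s⟩, hc⟩ := IsLocalization.surj P.primeCompl c
      refine ⟨a, s, s.2, hc, ?_⟩
      have h2 := congrArg σ hc
      rw [map_mul, hσO, hσO] at h2
      rw [← h2, mul_assoc, mul_inv_cancel₀ (hunit s s.2).2, mul_one]
    let _ : Algebra D F := σ.toAlgebra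
    have hσ : ∀ c : D, algebraMap D F c = σ c := fun c => rfl
    have hσi : Function.Injective σ := by
      rw [injective_iff_map_eq_zero]
      intro c hc
      obtain ⟨a, s, hs, h2, h3⟩ := hfr c
      rw [hc] at h3
      have h4 : ρ a = 0 := (mul_eq_zero.1 h3.symm).resolve_right (inv_ne_zero (hunit s hs).2)
      have h5 : a = 0 := hρ (by rw [h4, map_zero])
      rw [h5, map_zero] at h2
      refine (mul_eq_zero.1 h2).resolve_right fun h6 => hs ?_
      have h7 : s = 0 := hOD (by rw [h6, map_zero])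
      rw [h7]
      exact P.zero_mem
    have hfD : FaithfulSMul D F := (faithfulSMul_iff_algebraMap_injective D F).2 hσi
    have hD : ∀ c : D, algebraMap D F c ∈ W := by
      intro c
      obtain ⟨a, s, hs, h2, h3⟩ := hfr c
      rw [hσ, h3]
      exact W.mul_mem _ _ (h a) (hunit s hs).1
    let g : D →+* ResidueField W := resO σ W hD
    have hgO : ∀ c : O, g (algebraMap O D c) = resO ρ W h c := by
      intro c
      rw [resO_apply, resO_apply]
      congr 1
      exact Subtype.ext (hσO c)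
    have hloc : IsLocalHom g := by
      refine ⟨fun c hc => ?_⟩
      obtain ⟨a, s, hs, h2, h3⟩ := hfr c
      have h4 : a ∉ P := by
        intro h5
        have h6 : g c * g (algebraMap O D s) = 0 := by
          rw [← map_mul, h2, hgO]
          exact h5
        rcases mul_eq_zero.1 h6 with h7 | h7
        · exact hc.ne_zero h7
        · rw [hgO] at h7
          exact hs h7
      have h5 : IsUnit (algebraMap O D a) := IsLocalization.map_units D (⟨a, h4⟩ : P.primeCompl)
      rw [← h2] at h5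
      exact isUnit_of_mul_isUnit_left h5
    let G : ResidueField D →+* ResidueField W := IsLocalRing.ResidueField.lift g
    let _ : Algebra (ResidueField D) (ResidueField W) := G.toAlgebra
    have hG : ∀ c : D, G (residue D c) = g c := fun c => rfl
    let _ : Algebra O F := ρ.toAlgebra
    have hfO : FaithfulSMul O F := (faithfulSMul_iff_algebraMap_injective O F).2 hρ
    have hfOD : FaithfulSMul O D := (faithfulSMul_iff_algebraMap_injective O D).2 hOD
    have htow : IsScalarTower O D F := IsScalarTower.of_algebraMap_eq fun c => (hσO c).symm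
    have halg : Algebra.IsAlgebraic O D := by
      refine ⟨fun c => ?_⟩
      obtain ⟨a, s, hs, h2, -⟩ := hfr c
      refine ⟨Polynomial.C s * Polynomial.X - Polynomial.C a, ?_, ?_⟩
      · intro h0
        have h3 := congrArg (fun q => Polynomial.coeff q 1) h0
        simp at h3
        apply hs
        rw [h3]
        exact P.zero_mem
      · simp only [map_sub, map_mul, Polynomial.aeval_C, Polynomial.aeval_X]
        rw [mul_comm, h2, sub_self]
    refine ⟨D, inferInstance, inferInstance, hdvr, hcD, inferInstance, hfD, hD, inferInstance,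
      fun c => rfl, fun c => ⟨algebraMap O D c, hσO c⟩, fun c => ?_, ?_, ?_⟩
    · obtain ⟨a, s, hs, -, h3⟩ := hfr c
      exact ⟨a, s, (hunit s hs).2, (hunit s hs).1, h3⟩
    · rw [kd_inj ρ rfl, trdeg_alg O D F]
    · refine kd_ninj _ hres (ResidueField D) ?_
      ext z
      constructor
      · rintro ⟨c, rfl⟩
        obtain ⟨c, rfl⟩ := residue_surjective c
        obtain ⟨a, s, hs, h2, -⟩ := hfr c
        -- an inverse of `s` modulo `P`
        obtain ⟨y, hy⟩ : ∃ y : O, y * s - 1 ∈ P := by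
          have h3 := hPm.exists_inv hs
          obtain ⟨y, q, hq, h4⟩ := h3
          refine ⟨y, ?_⟩
          have h5 : y * s - 1 = -q := by rw [← h4]; ring
          rw [h5]
          exact P.neg_mem hq
        refine ⟨a * y, ?_⟩
        have h3 : g c * resO ρ W h s = resO ρ W h a := by
          rw [← hgO, ← hgO, ← map_mul, h2]
        have h4 : resO ρ W h y * resO ρ W h s = 1 := by
          have h5 : resO ρ W h (y * s - 1) = 0 := hy
          rw [map_sub, map_mul, map_one, sub_eq_zero] at h5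
          exact h5
        change resO ρ W h (a * y) = g c
        rw [map_mul, ← h3, mul_assoc, mul_comm (resO ρ W h s), h4, mul_one]
      · rintro ⟨c, rfl⟩
        refine ⟨residue D (algebraMap O D c), ?_⟩
        exact hgO c

/-- A valuation of rank one. -/
theorem step_one {d : ℕ} (hd : LUD.{u} d) (hm : LUM.{u} d) {O F : Type u} [CommRing O]
    [IsDedekindDomain O] [CharZero O] [Field F] (ρ : O →+* F)
    (W : ValuationSubring F) (h : ∀ c : O, ρ c ∈ W)
    (h1 : ∀ W' : ValuationSubring F, W ≤ W' → W' = W ∨ W' = ⊤)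
    (hfin : kd (resO ρ W h) < ℵ₀) (hdrop : kd ρ ≤ kd (resO ρ W h) + d) : Good ρ W := by
  rcases cases3 ρ W h with ⟨k, _, _, hk, hr, e1, e2⟩ | ⟨k, _, _, hk, hρσ, hσ, e1, e2⟩ |
    ⟨D, _, _, _, _, _, _, hD, _, hψ, hρσ, hσ, e1, e2⟩
  · rw [e2] at hfin hdrop
    rw [e1] at hdrop
    obtain ⟨m, t, hm', ht⟩ := exists_basis W hk hfin
    rw [hm'] at hdrop
    exact good_range ρ (algebraMap k F) hr (good_step_one hd W hk h1 m t ht hm'.le hdrop)
  · have hfin' : resTr W hk < ℵ₀ := by
      rw [e2] at hfin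
      exact lt_of_le_of_lt le_self_add hfin
    rw [e1, e2] at hdrop
    obtain ⟨m, t, hm', ht⟩ := exists_basis W hk hfin'
    rw [hm'] at hdrop
    have h2 : Algebra.trdeg k F ≤ m + d := by
      have h3 : Algebra.trdeg k F + 1 ≤ ((m : Cardinal.{u}) + d) + 1 := by
        rw [add_right_comm] at hdrop
        exact hdrop
      exact (Cardinal.add_le_add_iff_of_lt_aleph0 Cardinal.one_lt_aleph0).1 h3
    exact good_loc ρ (algebraMap k F) hρσ hσ (good_step_one hd W hk h1 m t ht hm'.le h2)
  · rw [e2] at hfin hdrop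
    rw [e1] at hdrop
    obtain ⟨m, t, hm', htW, ht, hz⟩ := exists_lift W hD hψ hfin
    rw [hm'] at hdrop
    obtain ⟨π, hπ⟩ := IsDiscreteValuationRing.exists_irreducible D
    have hp : (algebraMap D F π)⁻¹ ∉ W := by
      intro h2
      have h3 : algebraMap D F π ≠ 0 := fun h =>
        hπ.ne_zero (FaithfulSMul.algebraMap_injective D F (by rw [h, map_zero]))
      have h4 : (⟨algebraMap D F π, hD π⟩ : W) * ⟨_, h2⟩ = 1 := Subtype.ext (mul_inv_cancel₀ h3)
      have h5 := congrArg (residue W) h4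
      have h6 : residue D π = 0 := by
        rw [residue_eq_zero_iff, hπ.maximalIdeal_eq]
        exact Ideal.mem_span_singleton_self π
      rw [map_mul, ← hψ, h6, map_zero, zero_mul, map_one] at h5
      exact zero_ne_one h5
    exact good_loc ρ (algebraMap D F) hρσ hσ
      (good_mixed hm W hD hπ hp h1 t htW ht hz hdrop)

/-- The residue field of the image. -/
lemma img_res' {K : Type u} [Field K] {V V₁ : ValuationSubring K} (hV : V ≤ V₁) :
    ∃ G : ResidueField V →+* ResidueField (img hV), Function.Surjective G ∧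
      ∀ z : V, G (residue V z) = residue (img hV) ⟨residue V₁ ⟨z, hV z.2⟩,
        (mem_img hV (hV z.2)).2 z.2⟩ := by
  let g₀ : V →+* img hV :=
    ((residue V₁).comp (Subring.inclusion (S := V.toSubring) (T := V₁.toSubring) hV)).codRestrict
      (img hV).toSubring fun z => (mem_img hV (hV z.2)).2 z.2
  let g : V →+* ResidueField (img hV) := (residue (img hV)).comp g₀
  have hloc : IsLocalHom g := by
    refine ⟨fun a ha => ?_⟩
    have h1 : g a ≠ 0 := ha.ne_zero
    have h2 : IsUnit (g₀ a) := by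
      by_contra h3
      exact h1 ((residue_eq_zero_iff _).2 ((mem_maximalIdeal _).2 h3))
    obtain ⟨b, hb⟩ := isUnit_iff_exists_inv.1 h2
    have hb' : residue V₁ ⟨a, hV a.2⟩ * (b : ResidueField V₁) = 1 := congrArg Subtype.val hb
    obtain ⟨z, hz, hzV, hzb⟩ := b.2
    rw [← hzb, ← map_mul] at hb'
    have h4 : IsUnit ((⟨a, hV a.2⟩ : V₁) * ⟨z, hz⟩) := by
      by_contra h5
      have h6 : residue V₁ ((⟨a, hV a.2⟩ : V₁) * ⟨z, hz⟩) = 0 :=
        (residue_eq_zero_iff _).2 ((mem_maximalIdeal _).2 h5)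
      rw [h6] at hb'
      exact zero_ne_one hb'
    have h7 : (a : K) * z ≠ 0 := by
      intro h0
      apply h4.ne_zero
      exact Subtype.ext h0
    have h8 : ((a : K) * z)⁻¹ ∈ V₁ := by
      obtain ⟨c, hc⟩ := isUnit_iff_exists_inv.1 h4
      have h9 : ((a : K) * z) * c = 1 := congrArg Subtype.val hc
      rw [← eq_inv_of_mul_eq_one_right h9]
      exact c.2
    have h10 : residue V₁ ⟨((a : K) * z)⁻¹, h8⟩ = 1 := by
      have h11 : residue V₁ ((⟨a, hV a.2⟩ : V₁) * ⟨z, hz⟩) *
          residue V₁ ⟨((a : K) * z)⁻¹, h8⟩ = 1 := by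
        rw [← map_mul, ← map_one (residue V₁)]
        congr 1
        exact Subtype.ext (mul_inv_cancel₀ h7)
      rw [hb', one_mul] at h11
      exact h11
    have h12 : ((a : K) * z)⁻¹ ∈ V := by
      rw [← mem_img hV h8, h10]
      exact (img hV).one_mem
    refine isUnit_iff_exists_inv.2 ⟨⟨z * ((a : K) * z)⁻¹, V.mul_mem _ _ hzV h12⟩, Subtype.ext ?_⟩
    change (a : K) * (z * ((a : K) * z)⁻¹) = 1
    rw [← mul_assoc, mul_inv_cancel₀ h7]
  have hsurj : Function.Surjective g := by
    intro w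
    obtain ⟨⟨w', hw'⟩, rfl⟩ := residue_surjective (R := img hV) w
    obtain ⟨z, hz, hzV, hzw⟩ := hw'
    refine ⟨⟨z, hzV⟩, ?_⟩
    change residue (img hV) _ = residue (img hV) _
    congr 1
    exact Subtype.ext hzw
  let G : ResidueField V →+* ResidueField (img hV) := IsLocalRing.ResidueField.lift g
  have hG : ∀ z : V, G (residue V z) = g z := fun z => rfl
  refine ⟨G, fun w => ?_, fun z => rfl⟩
  obtain ⟨z, hz⟩ := hsurj w
  exact ⟨residue V z, hz⟩

theorem good_adjO {d : ℕ} (hd : LUD.{u} d) (hm : LUM.{u} d) {O K : Type u} [CommRing O]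
    [IsDedekindDomain O] [CharZero O] [Field K] (ρ : O →+* K)
    {U U' : ValuationSubring K} (hle : U ≤ U') (hU : ∀ c : O, ρ c ∈ U) (hU' : ∀ c : O, ρ c ∈ U')
    (hadj : ∀ U'' : ValuationSubring K, U ≤ U'' → U'' ≤ U' → U'' = U ∨ U'' = U')
    (hfin : kd (resO ρ U hU) < ℵ₀) (hdrop : kd (resO ρ U' hU') ≤ kd (resO ρ U hU) + d)
    (h : Good ρ U') : Good ρ U := by
  obtain ⟨G, hG, hGc⟩ := img_res' hle
  have hW : ∀ c : O, resO ρ U' hU' c ∈ img hle := fun c => (mem_img hle (hU' c)).2 (hU c)
  have hkd : kd (resO (resO ρ U' hU') (img hle) hW) = kd (resO ρ U hU) := by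
    refine kd_congr _ _ G hG ?_
    ext c
    exact hGc ⟨ρ c, hU c⟩
  refine good_comp hj_dedekind ρ hU' (cmp_img hle) h ?_
  refine step_one hd hm (resO ρ U' hU') (img hle) hW (img_rank hle hadj) ?_ ?_
  · rw [hkd]
    exact hfin
  · rw [hkd]
    exact hdrop

end Pool.Agent.K6.H25.LDU
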